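import Mathlib

set_option autoImplicit false

namespace Pool.Agent.Results.MP_93e32b_nt.NoIdentityForCubePlusThree

open Polynomial

/-! ### an integer congruent to 3 mod 4 is not a sum of two rational squares -/

lemma no_sum_aux (m : ℤ) (hm : m % 4 = 3) : ∀ d : ℕ, 0 < d → ∀ X Y : ℤ,
    m * (d : ℤ) ^ 2 = X ^ 2 + Y ^ 2 → False := by
  intro d
  induction d using Nat.strong_induction_on with
  | _ d ih =>
    intro hd X Y h
    rcases Nat.even_or_odd' d with ⟨e, rfl | rfl⟩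
    · have h4 : (X ^ 2 + Y ^ 2) % 4 = 0 := by
        rw [← h]; push_cast; ring_nf; omega
      have hX : X % 2 = 0 := by
        rcases Int.even_or_odd' X with ⟨x, rfl | rfl⟩ <;> rcases Int.even_or_odd' Y with ⟨y, rfl | rfl⟩ <;>
          ring_nf at h4 ⊢ <;> omega
      have hY : Y % 2 = 0 := by
        rcases Int.even_or_odd' X with ⟨x, rfl | rfl⟩ <;> rcases Int.even_or_odd' Y with ⟨y, rfl | rfl⟩ <;>
          ring_nf at h4 ⊢ <;> omega
      obtain ⟨x, rfl⟩ : ∃ x, X = 2 * x := ⟨X / 2, by omega⟩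
      obtain ⟨y, rfl⟩ : ∃ y, Y = 2 * y := ⟨Y / 2, by omega⟩
      refine ih e (by omega) (by omega) x y ?_
      push_cast at h
      linarith
    · have hm' : (m * ((2 * e + 1 : ℕ) : ℤ) ^ 2) % 4 = 3 := by
        obtain ⟨k, hk⟩ : ∃ k, m = 4 * k + 3 := ⟨m / 4, by omega⟩
        rw [hk]; push_cast; ring_nf; omega
      rw [h] at hm'
      rcases Int.even_or_odd' X with ⟨x, rfl | rfl⟩ <;> rcases Int.even_or_odd' Y with ⟨y, rfl | rfl⟩ <;>
          ring_nf at hm' <;> omega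

lemma no_sum (m : ℤ) (hm : m % 4 = 3) (x y : ℚ) : (m : ℚ) ≠ x ^ 2 + y ^ 2 := by
  intro h
  refine no_sum_aux m hm (x.den * y.den) (Nat.mul_pos x.den_pos y.den_pos)
    (x.num * y.den) (y.num * x.den) ?_
  have hx : (x.den : ℚ) ≠ 0 := by exact_mod_cast x.den_ne_zero
  have hy : (y.den : ℚ) ≠ 0 := by exact_mod_cast y.den_ne_zero
  have h1 : x = x.num / x.den := (Rat.num_div_den x).symm
  have h2 : y = y.num / y.den := (Rat.num_div_den y).symm
  have h3 : (m : ℚ) * ((x.den : ℚ) * y.den) ^ 2 =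
      ((x.num : ℚ) * y.den) ^ 2 + ((y.num : ℚ) * x.den) ^ 2 := by
    rw [h]
    have e1 : x * x.den = x.num := by
      nth_rewrite 1 [h1]; field_simp
    have e2 : y * y.den = y.num := by
      nth_rewrite 1 [h2]; field_simp
    rw [← e1, ← e2]; ring
  exact_mod_cast h3

/-- the arithmetic heart -/
lemma arith (a b u v w : ℚ) (c : ℤ) (ha0 : a ≠ 0) (e f : ℚ) (ha : a = e ^ 2 + f ^ 2)
    (h1 : v ^ 2 + 2 * u * w = 0) (h2 : 2 * u * v - 3 * w ^ 2 = -4 * a)
    (h3 : u ^ 2 - 6 * v * w = 4 * a * c - b ^ 2) : False := by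
  have hw : w ≠ 0 := by
    rintro rfl
    have hv : v = 0 := by nlinarith [h1]
    rw [hv] at h2
    apply ha0
    linarith
  -- t = v / w
  obtain ⟨t, ht⟩ : ∃ t, v = t * w := ⟨v / w, by field_simp⟩
  have hu : u = -(t ^ 2 * w) / 2 := by
    have : w * (t ^ 2 * w + 2 * u) = 0 := by rw [ht] at h1; linear_combination h1
    rcases mul_eq_zero.mp this with h | h
    · exact absurd h hw
    · linarith
  have h4' : w ^ 2 * (t ^ 3 + 3) = 4 * a := by
    rw [ht, hu] at h2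
    linear_combination -h2
  obtain ⟨y, hy⟩ : ∃ y, 2 * b = y * w := ⟨2 * b / w, by field_simp⟩
  have h5 : y ^ 2 = 4 * c * (t ^ 3 + 3) - t ^ 4 + 24 * t := by
    rw [ht, hu] at h3
    have hw2 : w ^ 2 ≠ 0 := pow_ne_zero 2 hw
    apply mul_left_cancel₀ hw2
    have hb : b = y * w / 2 := by linarith
    rw [hb] at h3
    linear_combination 4 * h3 - 4 * c * h4'
  -- t = r / s
  have hs0 : (t.den : ℚ) ≠ 0 := by exact_mod_cast t.den_ne_zero
  have hts : t * t.den = t.num := by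
    have h1 : t = t.num / t.den := (Rat.num_div_den t).symm
    nth_rewrite 1 [h1]; field_simp
  set s : ℤ := (t.den : ℤ) with hs
  have hsq : (s : ℚ) = t.den := by rw [hs]; push_cast; rfl
  set r : ℤ := t.num with hr
  have hcop : IsCoprime r s := by
    have := t.reduced
    rw [Int.isCoprime_iff_gcd_eq_one]
    simpa [hr, hs, Int.gcd, Nat.Coprime] using this
  -- G = y s^2 is an integer
  have hG : (y * s ^ 2) ^ 2 = ((4 * c * s * (r ^ 3 + 3 * s ^ 3) - r ^ 4 + 24 * r * s ^ 3 : ℤ) : ℚ) := by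
    push_cast
    rw [← hts, hsq]
    linear_combination (t.den : ℚ) ^ 4 * h5
  obtain ⟨G, hG'⟩ : ∃ G : ℤ, (G : ℚ) = y * s ^ 2 := by
    have hint : IsIntegral ℤ (y * s ^ 2) := by
      refine ⟨X ^ 2 - C (4 * c * s * (r ^ 3 + 3 * s ^ 3) - r ^ 4 + 24 * r * s ^ 3), ?_, ?_⟩
      · exact monic_X_pow_sub_C _ (by norm_num)
      · rw [eval₂_sub, eval₂_pow, eval₂_X, eval₂_C, hG]
        simp
    obtain ⟨G, hG⟩ := (IsIntegrallyClosed.isIntegral_iff (R := ℤ) (K := ℚ)).mp hint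
    exact ⟨G, by simpa using hG⟩
  rw [← hG'] at hG
  have hGi : G ^ 2 = 4 * c * s * (r ^ 3 + 3 * s ^ 3) - r ^ 4 + 24 * r * s ^ 3 := by
    exact_mod_cast hG
  -- parity
  have h4 : (G ^ 2 + (r ^ 2) ^ 2) % 4 = 0 := by
    have : G ^ 2 + (r ^ 2) ^ 2 = 4 * (c * s * (r ^ 3 + 3 * s ^ 3) + 6 * r * s ^ 3) := by
      rw [hGi]; ring
    rw [this]; exact Int.mul_emod_right 4 _
  have hr2 : (r ^ 2) % 2 = 0 := by
    generalize r ^ 2 = R at h4 ⊢
    rcases Int.even_or_odd' G with ⟨x, rfl | rfl⟩ <;> rcases Int.even_or_odd' R with ⟨z, rfl | rfl⟩ <;>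
      ring_nf at h4 ⊢ <;> omega
  have hr1 : Even r := by
    rw [← Int.even_iff] at hr2
    exact (Int.even_pow.mp hr2).1
  have hs1 : Odd s := by
    rw [← Int.not_even_iff_odd]
    intro hse
    obtain ⟨r', hr'⟩ := hr1.two_dvd
    obtain ⟨s', hs'⟩ := hse.two_dvd
    have := hcop.isUnit_of_dvd' (x := 2) ⟨r', hr'⟩ ⟨s', hs'⟩
    rw [Int.isUnit_iff] at this
    omega
  -- the number m
  have hm : (s * (r ^ 3 + 3 * s ^ 3)) % 4 = 3 := by
    obtain ⟨r', rfl'⟩ := hr1.two_dvd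
    obtain ⟨s', hs'⟩ := hs1
    rw [rfl', hs']
    ring_nf
    omega
  have hd : (2 * (s : ℚ) ^ 2 / w) ^ 2 * a = ((s * (r ^ 3 + 3 * s ^ 3) : ℤ) : ℚ) := by
    push_cast
    rw [← hts, hsq]
    have hw2 : w ^ 2 ≠ 0 := pow_ne_zero 2 hw
    field_simp
    linear_combination -h4'
  refine no_sum _ hm (2 * (s : ℚ) ^ 2 / w * e) (2 * (s : ℚ) ^ 2 / w * f) ?_
  rw [← hd, ha]
  ring

/-! ### the field generated by the real cube root of -3 -/

lemma irr_int : Irreducible (X ^ 3 + C 3 : ℤ[X]) := by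
  have hm : (X ^ 3 + C 3 : ℤ[X]).Monic := monic_X_pow_add_C 3 (by norm_num)
  have hd : (X ^ 3 + C 3 : ℤ[X]).natDegree = 3 := natDegree_X_pow_add_C
  have hP : (Ideal.span {(3 : ℤ)}).IsPrime := by
    rw [Ideal.span_singleton_prime (by norm_num)]
    exact Int.prime_three
  refine irreducible_of_eisenstein_criterion hP ?_ ?_ ?_ ?_ hm.isPrimitive
  · rw [hm.leadingCoeff, Ideal.mem_span_singleton]
    norm_num
  · intro n hn
    rw [degree_eq_natDegree hm.ne_zero, hd] at hn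
    have hn : n < 3 := by exact_mod_cast hn
    rw [Ideal.mem_span_singleton]
    interval_cases n <;> simp [coeff_X_pow, coeff_C]
  · rw [degree_eq_natDegree hm.ne_zero, hd]
    norm_num
  · rw [Ideal.span_singleton_pow, Ideal.mem_span_singleton]
    simp [coeff_X_pow]

lemma irr_rat : Irreducible (X ^ 3 + C 3 : ℚ[X]) := by
  have hm : (X ^ 3 + C 3 : ℤ[X]).Monic := monic_X_pow_add_C 3 (by norm_num)
  have h := (hm.irreducible_iff_irreducible_map_fraction_map (K := ℚ)).mp irr_int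
  have e : (X ^ 3 + C 3 : ℤ[X]).map (algebraMap ℤ ℚ) = X ^ 3 + C 3 := by
    rw [Polynomial.map_add, Polynomial.map_pow, map_X, map_C]
    rfl
  rwa [e] at h

lemma minpoly_eq (α : ℝ) (hα : α ^ 3 = -3) : minpoly ℚ α = X ^ 3 + C 3 := by
  symm
  apply minpoly.eq_of_irreducible_of_monic irr_rat
  · simp [hα]
  · exact monic_X_pow_add_C 3 (by norm_num)

lemma indep (α : ℝ) (hα : α ^ 3 = -3) (u v w : ℚ) (h : (u : ℝ) + v * α + w * α ^ 2 = 0) :
    u = 0 ∧ v = 0 ∧ w = 0 := by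
  set f : ℚ[X] := C u + C v * X + C w * X ^ 2 with hf
  have h0 : aeval α f = 0 := by
    rw [hf]; simpa using h
  have hf0 : f = 0 := by
    by_contra hne
    have h1 := minpoly.degree_le_of_ne_zero ℚ α hne h0
    rw [minpoly_eq α hα, degree_X_pow_add_C (by norm_num)] at h1
    have h2 : f.degree ≤ 2 := by rw [hf]; compute_degree
    have := h1.trans h2
    norm_num at this
  have c0 : f.coeff 0 = u := by rw [hf]; simp
  have c1 : f.coeff 1 = v := by rw [hf]; simp [coeff_X, coeff_X_pow, coeff_C]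
  have c2 : f.coeff 2 = w := by rw [hf]; simp [coeff_X, coeff_X_pow, coeff_C]
  rw [hf0] at c0 c1 c2
  simp at c0 c1 c2
  exact ⟨c0.symm, c1.symm, c2.symm⟩

open IntermediateField in
lemma rep (α : ℝ) (hα : α ^ 3 = -3) (x : ℝ) (hx : x ∈ ℚ⟮α⟯) :
    ∃ u v w : ℚ, x = u + v * α + w * α ^ 2 := by
  have hint : IsIntegral ℚ α := ⟨X ^ 3 + C 3, monic_X_pow_add_C 3 (by norm_num), by simp [hα]⟩
  have h1 : x ∈ (ℚ⟮α⟯).toSubalgebra := hx
  rw [IntermediateField.adjoin_simple_toSubalgebra_of_isAlgebraic hint.isAlgebraic,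
    Algebra.adjoin_singleton_eq_range_aeval] at h1
  obtain ⟨f, rfl⟩ := h1
  have hg : (X ^ 3 + C 3 : ℚ[X]).Monic := monic_X_pow_add_C 3 (by norm_num)
  have hroot : aeval α (X ^ 3 + C 3 : ℚ[X]) = 0 := by simp [hα]
  have h2 := Polynomial.aeval_modByMonic_eq_self_of_root (p := f) hroot
  have hdeg : (f %ₘ (X ^ 3 + C 3)).natDegree < 3 := by
    have := natDegree_modByMonic_lt f hg (by
      intro h
      have := congrArg natDegree h
      rw [natDegree_X_pow_add_C] at this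
      simp at this)
    rwa [natDegree_X_pow_add_C] at this
  set g := f %ₘ (X ^ 3 + C 3) with hgdef
  refine ⟨g.coeff 0, g.coeff 1, g.coeff 2, ?_⟩
  change aeval α f = _
  rw [← h2, Polynomial.aeval_eq_sum_range' hdeg]
  simp [Finset.sum_range_succ, Algebra.smul_def]

/-! ### values of rational polynomials at a root of `q0 = α` -/

open IntermediateField in
/-- `q(θ) = x + y θ'` with `x, y` in the real field `ℚ(α)`, where `θ' = 2aθ + b` -/
lemma form (α : ℝ) (K : IntermediateField ℚ ℝ) (hαK : α ∈ K) (a b : ℚ) (ha : a ≠ 0)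
    (Δ : ℝ) (hΔ : Δ ∈ K) (θ θ' : ℂ) (hθ : θ' = 2 * a * θ + b) (hθ2 : θ' ^ 2 = (Δ : ℂ)) (q : ℚ[X]) :
    ∃ x y : ℝ, x ∈ K ∧ y ∈ K ∧ aeval θ q = (x : ℂ) + y * θ' := by
  have haC : (a : ℂ) ≠ 0 := by exact_mod_cast ha
  have rat (r : ℚ) : ((r : ℚ) : ℝ) ∈ K := by
    have := K.algebraMap_mem r
    simpa using this
  induction q using Polynomial.induction_on' with
  | add p q hp hq =>
    obtain ⟨x, y, hx, hy, e⟩ := hp
    obtain ⟨x', y', hx', hy', e'⟩ := hq
    refine ⟨x + x', y + y', add_mem hx hx', add_mem hy hy', ?_⟩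
    rw [map_add, e, e']; push_cast; ring
  | monomial n r =>
    induction n with
    | zero =>
      refine ⟨r, 0, rat r, K.zero_mem, ?_⟩
      simp
    | succ n ih =>
      obtain ⟨x, y, hx, hy, e⟩ := ih
      refine ⟨(y * Δ - b * x) / (2 * a), (x - b * y) / (2 * a), ?_, ?_, ?_⟩
      · have h2 : (2 : ℝ) * a ∈ K := by
          have := rat (2 * a); push_cast at this; exact this
        exact div_mem (sub_mem (mul_mem hy hΔ) (mul_mem (rat b) hx)) h2
      · have h2 : (2 : ℝ) * a ∈ K := by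
          have := rat (2 * a); push_cast at this; exact this
        exact div_mem (sub_mem hx (mul_mem (rat b) hy)) h2
      · have e2 : aeval θ (monomial (n + 1) r) = aeval θ (monomial n r) * θ := by
          rw [← monomial_mul_X, map_mul, aeval_X]
        rw [e2, e]
        have e3 : θ = (θ' - b) / (2 * a) := by rw [hθ]; field_simp; ring
        rw [e3]
        push_cast
        field_simp
        linear_combination (y : ℂ) * hθ2

/-- the leading coefficient `a` is a sum of two squares -/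
lemma lead (a b c0 : ℚ) (ha : a ≠ 0) (q1 q2 : ℚ[X])
    (h : (C a * X ^ 2 + C b * X + C c0) ^ 3 + C 3 = q1 ^ 2 + q2 ^ 2) :
    ∃ e f : ℚ, a = e ^ 2 + f ^ 2 := by
  set Q : ℚ[X] := C a * X ^ 2 + C b * X + C c0 with hQ
  have hd : Q.natDegree = 2 := natDegree_quadratic ha
  have hl : Q.leadingCoeff = a := leadingCoeff_quadratic ha
  have hd3 : (Q ^ 3 + C 3).natDegree = 6 := by
    rw [natDegree_add_C, natDegree_pow, hd]
  have hc6 : (Q ^ 3 + C 3).coeff 6 = a ^ 3 := by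
    have h1 : (Q ^ 3).coeff 6 = a ^ 3 := by
      have : (Q ^ 3).natDegree = 6 := by rw [natDegree_pow, hd]
      rw [← this, coeff_natDegree, leadingCoeff_pow, hl]
    rw [coeff_add, h1, coeff_C]
    norm_num
  obtain ⟨N, hN⟩ : ∃ N, N = max q1.natDegree q2.natDegree := ⟨_, rfl⟩
  have h1 : q1.natDegree ≤ N := hN ▸ le_max_left _ _
  have h2 : q2.natDegree ≤ N := hN ▸ le_max_right _ _
  have hc : (Q ^ 3 + C 3).coeff (2 * N) = q1.coeff N ^ 2 + q2.coeff N ^ 2 := by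
    rw [h, coeff_add, coeff_pow_of_natDegree_le h1, coeff_pow_of_natDegree_le h2]
  have hle : 6 ≤ 2 * N := by
    rw [← hd3, h]
    refine (natDegree_add_le _ _).trans (max_le ?_ ?_)
    · exact natDegree_pow_le.trans (Nat.mul_le_mul_left _ h1)
    · exact natDegree_pow_le.trans (Nat.mul_le_mul_left _ h2)
  have hne : q1.coeff N ^ 2 + q2.coeff N ^ 2 ≠ 0 := by
    intro h0
    have e1 : q1.coeff N = 0 := by nlinarith [sq_nonneg (q1.coeff N), sq_nonneg (q2.coeff N)]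
    have e2 : q2.coeff N = 0 := by nlinarith [sq_nonneg (q1.coeff N), sq_nonneg (q2.coeff N)]
    rcases max_choice q1.natDegree q2.natDegree with hm | hm
    · rw [hN, hm] at e1
      have : q1 = 0 := leadingCoeff_eq_zero.mp e1
      rw [this] at hm
      rw [hN, this, hm] at hle
      simp at hle
    · rw [hN, hm] at e2
      have : q2 = 0 := leadingCoeff_eq_zero.mp e2
      rw [this] at hm
      rw [hN, this, hm] at hle
      simp at hle
  have hge : 2 * N ≤ 6 := by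
    rw [← hd3]
    exact le_natDegree_of_ne_zero (by rw [hc]; exact hne)
  have hN3 : 2 * N = 6 := le_antisymm hge hle
  rw [hN3, hc6] at hc
  refine ⟨q1.coeff N / a, q2.coeff N / a, ?_⟩
  field_simp
  linear_combination hc

open IntermediateField in
theorem no_identity (a b c0 : ℚ) (c : ℤ) (ha : a ≠ 0) (hc : c0 = c) (q1 q2 : ℚ[X])
    (h : (C a * X ^ 2 + C b * X + C c0) ^ 3 + C 3 = q1 ^ 2 + q2 ^ 2) : False := by
  obtain ⟨e, f, hef⟩ := lead a b c0 ha q1 q2 h
  have haC : (a : ℂ) ≠ 0 := by exact_mod_cast ha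
  have haR : (a : ℝ) ≠ 0 := by exact_mod_cast ha
  -- the real number α
  obtain ⟨α, hα⟩ : ∃ α : ℝ, α ^ 3 = -3 := by
    refine ⟨-((3 : ℝ) ^ (1 / 3 : ℝ)), ?_⟩
    have h3 : ((3 : ℝ) ^ (1 / 3 : ℝ)) ^ 3 = 3 := by
      rw [← Real.rpow_natCast, ← Real.rpow_mul (by norm_num)]
      norm_num
    linear_combination -h3
  have hα0 : α ≠ 0 := by rintro rfl; norm_num at hα
  set K : IntermediateField ℚ ℝ := ℚ⟮α⟯ with hK
  have hαK : α ∈ K := IntermediateField.mem_adjoin_simple_self ℚ α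
  have rat (r : ℚ) : ((r : ℚ) : ℝ) ∈ K := by
    have := K.algebraMap_mem r
    simpa using this
  obtain ⟨Δ, hΔ⟩ : ∃ Δ : ℝ, Δ = ((b ^ 2 - 4 * a * c0 : ℚ) : ℝ) + ((4 * a : ℚ) : ℝ) * α :=
    ⟨_, rfl⟩
  have hΔK : Δ ∈ K := by
    rw [hΔ]; exact add_mem (rat _) (mul_mem (rat _) hαK)
  obtain ⟨θ', hθ2⟩ : ∃ θ' : ℂ, θ' ^ 2 = (Δ : ℂ) := IsAlgClosed.exists_pow_nat_eq _ (by norm_num)
  obtain ⟨θ, hθ0⟩ : ∃ θ : ℂ, θ = (θ' - b) / (2 * a) := ⟨_, rfl⟩
  have hθ : θ' = 2 * a * θ + b := by rw [hθ0]; field_simp; ring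
  have hq0 : (a : ℂ) * θ ^ 2 + b * θ + c0 = α := by
    have h4 : (4 * a : ℂ) ≠ 0 := mul_ne_zero (by norm_num) haC
    apply mul_left_cancel₀ h4
    have : (θ' ^ 2 : ℂ) = (b ^ 2 - 4 * a * c0) + 4 * a * α := by
      rw [hθ2, hΔ]; push_cast; ring
    rw [hθ] at this
    linear_combination this
  have hα3 : (α : ℂ) ^ 3 = -3 := by exact_mod_cast hα
  -- not both values vanish
  have key : ¬ (aeval θ q1 = 0 ∧ aeval θ q2 = 0) := by
    rintro ⟨z1, z2⟩
    have hder := congrArg (fun P => aeval θ (derivative P)) h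
    simp only [derivative_add, derivative_pow, derivative_mul, derivative_C, derivative_X,
      map_add, map_mul, map_pow, aeval_C, aeval_X, z1, z2] at hder
    simp only [eq_ratCast, Nat.cast_ofNat, Nat.cast_one, map_ofNat, map_natCast] at hder
    simp at hder
    rw [hq0] at hder
    have hθ'0 : θ' = 0 := by
      rcases hder with h0 | h0
      · exact absurd (by exact_mod_cast h0) hα0
      · rw [hθ]; linear_combination h0
    rw [hθ'0] at hθ2
    have hΔ0 : Δ = 0 := by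
      have : (Δ : ℂ) = 0 := by rw [← hθ2]; ring
      exact_mod_cast this
    rw [hΔ] at hΔ0
    have := (indep α hα (b ^ 2 - 4 * a * c0) (4 * a) 0 (by push_cast at hΔ0 ⊢; linarith)).2.1
    apply ha; linarith
  have hzero : (aeval θ q1) ^ 2 + (aeval θ q2) ^ 2 = 0 := by
    have := congrArg (fun P => aeval θ P) h
    simp only [map_add, map_mul, map_pow, aeval_C, aeval_X] at this
    rw [← this]
    simp only [eq_ratCast]
    rw [hq0, hα3]
    simp
  obtain ⟨x1, y1, hx1, hy1, e1⟩ := form α K hαK a b ha Δ hΔK θ θ' hθ hθ2 q1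
  obtain ⟨x2, y2, hx2, hy2, e2⟩ := form α K hαK a b ha Δ hΔK θ θ' hθ hθ2 q2
  have hPQ : ((x1 ^ 2 + x2 ^ 2 + (y1 ^ 2 + y2 ^ 2) * Δ : ℝ) : ℂ) +
      ((2 * (x1 * y1 + x2 * y2) : ℝ) : ℂ) * θ' = 0 := by
    rw [e1, e2] at hzero
    push_cast
    linear_combination hzero - ((y1 : ℂ) ^ 2 + y2 ^ 2) * hθ2
  by_cases hQ : 2 * (x1 * y1 + x2 * y2) = 0
  · rw [hQ] at hPQ
    have hP : x1 ^ 2 + x2 ^ 2 + (y1 ^ 2 + y2 ^ 2) * Δ = 0 := by
      have : ((x1 ^ 2 + x2 ^ 2 + (y1 ^ 2 + y2 ^ 2) * Δ : ℝ) : ℂ) = 0 := by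
        simpa using hPQ
      exact_mod_cast this
    by_cases hS : y1 ^ 2 + y2 ^ 2 = 0
    · have hy1' : y1 = 0 := by nlinarith [sq_nonneg y1, sq_nonneg y2]
      have hy2' : y2 = 0 := by nlinarith [sq_nonneg y1, sq_nonneg y2]
      rw [hS, zero_mul, add_zero] at hP
      have hx1' : x1 = 0 := by nlinarith [sq_nonneg x1, sq_nonneg x2]
      have hx2' : x2 = 0 := by nlinarith [sq_nonneg x1, sq_nonneg x2]
      apply key
      rw [e1, e2, hx1', hx2', hy1', hy2']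
      simp
    · obtain ⟨τ, hτ⟩ : ∃ τ : ℝ, τ = (x1 * y2 - x2 * y1) / (y1 ^ 2 + y2 ^ 2) := ⟨_, rfl⟩
      have hτK : τ ∈ K := by
        rw [hτ]
        exact div_mem (sub_mem (mul_mem hx1 hy2) (mul_mem hx2 hy1))
          (add_mem (pow_mem hy1 2) (pow_mem hy2 2))
      have hτ2 : τ ^ 2 = -Δ := by
        rw [hτ, div_pow, div_eq_iff (pow_ne_zero 2 hS)]
        linear_combination (y1 ^ 2 + y2 ^ 2) * hP - (1 / 2) * (x1 * y1 + x2 * y2) * hQ
      obtain ⟨u, v, w, huvw⟩ := rep α hα τ hτK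
      rw [huvw, hΔ] at hτ2
      have hind := indep α hα (u ^ 2 - 6 * v * w + (b ^ 2 - 4 * a * c0))
        (2 * u * v - 3 * w ^ 2 + 4 * a) (v ^ 2 + 2 * u * w) (by
          push_cast at hτ2 ⊢
          linear_combination hτ2 - (2 * (v : ℝ) * w + w ^ 2 * α) * hα)
      refine arith a b u v w c ha e f hef hind.2.2 (by linarith [hind.2.1]) ?_
      rw [← hc]; linarith [hind.1]
  · obtain ⟨ρ, hρ⟩ : ∃ ρ : ℝ, θ = (ρ : ℂ) := by
      refine ⟨(-(x1 ^ 2 + x2 ^ 2 + (y1 ^ 2 + y2 ^ 2) * Δ) / (2 * (x1 * y1 + x2 * y2)) - b) / (2 * a),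
        ?_⟩
      have hQC : ((2 * (x1 * y1 + x2 * y2) : ℝ) : ℂ) ≠ 0 := by exact_mod_cast hQ
      have : θ' = -((x1 ^ 2 + x2 ^ 2 + (y1 ^ 2 + y2 ^ 2) * Δ : ℝ) : ℂ) /
          ((2 * (x1 * y1 + x2 * y2) : ℝ) : ℂ) := by
        field_simp
        linear_combination hPQ
      rw [hθ0, this]
      push_cast
      rfl
    have ev (q : ℚ[X]) : aeval θ q = ((aeval ρ q : ℝ) : ℂ) := by
      rw [hρ]
      exact Polynomial.aeval_algebraMap_apply ℂ ρ q
    rw [ev q1, ev q2] at hzero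
    have hz : (aeval ρ q1 : ℝ) ^ 2 + (aeval ρ q2 : ℝ) ^ 2 = 0 := by exact_mod_cast hzero
    apply key
    rw [ev q1, ev q2]
    have z1 : (aeval ρ q1 : ℝ) = 0 := by
      nlinarith [sq_nonneg (aeval ρ q1 : ℝ), sq_nonneg (aeval ρ q2 : ℝ)]
    have z2 : (aeval ρ q2 : ℝ) = 0 := by
      nlinarith [sq_nonneg (aeval ρ q1 : ℝ), sq_nonneg (aeval ρ q2 : ℝ)]
    rw [z1, z2]
    simp

/-- There is an irreducible monic cubic `p` with integer coefficients (namely `x^3 + 3`) such that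
for no integer-valued quadratic polynomial `q0` with rational coefficients is `p(q0(x))` a sum of
two squares of rational polynomials. -/
theorem result : ∃ p : ℤ[X], p.Monic ∧ p.natDegree = 3 ∧ Irreducible p ∧
    ¬ ∃ q0 q1 q2 : ℚ[X], q0.natDegree = 2 ∧ (∀ n : ℤ, ∃ m : ℤ, q0.eval (n : ℚ) = m) ∧
      (p.map (Int.castRingHom ℚ)).comp q0 = q1 ^ 2 + q2 ^ 2 := by
  refine ⟨X ^ 3 + C 3, monic_X_pow_add_C 3 (by norm_num), natDegree_X_pow_add_C, irr_int, ?_⟩
  rintro ⟨q0, q1, q2, hd, hint, h⟩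
  obtain ⟨c, hc⟩ := hint 0
  have hq0 : q0 = C (q0.coeff 2) * X ^ 2 + C (q0.coeff 1) * X + C (q0.coeff 0) := by
    conv_lhs => rw [q0.as_sum_range_C_mul_X_pow' (n := 3) (by omega)]
    simp [Finset.sum_range_succ]
    ring
  have ha : q0.coeff 2 ≠ 0 := by
    intro h0
    have : q0 ≠ 0 := by rintro rfl; simp at hd
    apply this
    rw [← leadingCoeff_eq_zero, leadingCoeff, hd]
    exact h0
  have hc0 : q0.coeff 0 = c := by
    rw [← hc]; simp [Polynomial.coeff_zero_eq_eval_zero]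
  apply no_identity (q0.coeff 2) (q0.coeff 1) (q0.coeff 0) c ha hc0 q1 q2
  rw [← hq0, ← h, Polynomial.map_add, Polynomial.map_pow, map_X, map_C, add_comp, pow_comp,
    X_comp, C_comp]
  rfl

end Pool.Agent.Results.MP_93e32b_nt.NoIdentityForCubePlusThree
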